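import Pool.Agent.Work.MP_64ea0f_al_39.Final

/-!
Coxeter elements are separated by finite quotients.

Let `W` be a Coxeter group of finite rank with Coxeter generators `s_b`. A product of distinct
generators `s_(b_1) ⋯ s_(b_k)` is a Coxeter element of the standard parabolic subgroup generated by
its letters. There is a finite group `F` and a homomorphism `φ : W → F` such that two such products
with the same letters (in any orders) have conjugate images in `F` only if they are conjugate in
`W`. Proof: the reflection representations given by the non-symmetric Cartan matrices
`a_st a_ts = 4 cos²(π/m_st)` over the algebraic closure of a large prime field; the characteristic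
polynomial of a Coxeter element is `det (λ U + L)` where `U + L` is the Cartan matrix; sending the
cyclic parameter of a cycle of the Coxeter graph to infinity one reads off the number of edges of
the cycle traversed in the positive direction, and these numbers determine the orientation up to
source to sink moves.
-/

set_option autoImplicit false

namespace Pool.Agent.Results.MP_64ea0f_al.CoxeterElements

theorem result (B : Type) [Finite B] (M : CoxeterMatrix B) :
    ∃ (F : Type) (_ : Group F) (_ : Finite F) (φ : M.Group →* F),
      ∀ l l' : List B, l.Nodup → l.Perm l' →
        (IsConj (φ (l.map M.simple).prod) (φ (l'.map M.simple).prod) ↔
          IsConj (l.map M.simple).prod (l'.map M.simple).prod) := by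
  have h := Cx39.main M.toCoxeterSystem
  exact h

end Pool.Agent.Results.MP_64ea0f_al.CoxeterElements
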